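import Pool.Agent.Helper53.PT.GoalsB

/-!
# MP_705522_gt, packet (HG): sampling formula with a Gaussian component
-/

namespace Pool.Agent.Helper19.PT

open MeasureTheory Set Filter ProbabilityTheory
open Pool.Agent.Helper53.PT
open Pool.Agent.Helper28.NO (IsLaw Ok Lf)
open Pool.Agent.Helper59.PT (Law)
open Pool.Agent.Helper39.PT

/-- The Gaussian law. -/
theorem law_gauss (v : NNReal) :
    Law (fun ξ => Real.exp (-((v : ℝ) * ξ ^ 2) / 2)) v (gaussianReal 0 v) := by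
  have hexp : ∀ l : ℝ, Integrable (fun x => Real.exp (l * x)) (gaussianReal 0 v) := fun l =>
    integrable_exp_mul_gaussianReal l
  have hmgf : ∀ l : ℝ, ∫ x, Real.exp (l * x) ∂(gaussianReal 0 v) = Real.exp (l ^ 2 * v / 2) := by
    intro l
    have h := congrFun (mgf_fun_id_gaussianReal (μ := 0) (v := v)) l
    unfold mgf at h
    rw [h]
    congr 1
    ring
  refine ⟨inferInstance, fun ξ => ?_, ?_, ?_, fun l => ?_⟩
  · have h := charFun_gaussianReal (μ := 0) (v := v) ξ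
    rw [charFun_apply_real] at h
    have hre := congrArg Complex.re h
    have h1 : (∫ x : ℝ, Complex.exp (ξ * x * Complex.I) ∂(gaussianReal 0 v)).re =
        ∫ x : ℝ, Real.cos (ξ * x) ∂(gaussianReal 0 v) := by
      rw [← RCLike.re_eq_complex_re, ← integral_re]
      · refine integral_congr_ae (Eventually.of_forall fun x => ?_)
        simp only
        rw [RCLike.re_eq_complex_re]
        have : (ξ : ℂ) * x * Complex.I = ((ξ * x : ℝ) : ℂ) * Complex.I := by push_cast; ring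
        rw [this, Complex.exp_ofReal_mul_I_re]
      · refine Integrable.mono' (integrable_const (1 : ℝ)) (by fun_prop)
          (Eventually.of_forall fun x => ?_)
        have : (ξ : ℂ) * x * Complex.I = ((ξ * x : ℝ) : ℂ) * Complex.I := by push_cast; ring
        rw [this, Complex.norm_exp_ofReal_mul_I]
    rw [h1] at hre
    rw [hre]
    have h2 : (ξ : ℂ) * ((0 : ℝ) : ℂ) * Complex.I - ((v : ℝ) : ℂ) * (ξ : ℂ) ^ 2 / 2 =
        ((-(v * ξ ^ 2) / 2 : ℝ) : ℂ) := by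
      push_cast
      ring
    rw [h2, Complex.exp_ofReal_re]
  · exact (memLp_id_gaussianReal (μ := 0) (v := v) 2).integrable_sq
  · have h := variance_fun_id_gaussianReal (μ := 0) (v := v)
    rw [variance_eq_integral (by fun_prop)] at h
    rw [integral_id_gaussianReal] at h
    simpa using h
  · have hc : (fun x => Real.cosh (l * x)) = fun x => (Real.exp (l * x) + Real.exp (-l * x)) / 2 := by
      funext x
      rw [Real.cosh_eq]
      ring_nf
    rw [hc]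
    refine ⟨((hexp l).add (hexp (-l))).div_const 2, ?_⟩
    rw [integral_div, integral_add (hexp l) (hexp (-l)), hmgf, hmgf]
    rw [neg_sq]
    linarith

lemma num_bound {v : ℝ} (hv : v ≤ 1.102) :
    2 * Real.pi ^ 2 * Real.exp (-(4 * Real.pi ^ 2)) * Real.exp ((2 * Real.pi) ^ 2 * v / 2) ≤ 5e-7 := by
  have h1 := Real.pi_gt_d4
  have h2 := Real.pi_lt_d4
  have h3 : 19.7379 ≤ 2 * Real.pi ^ 2 := by nlinarith
  have h4 : 2 * Real.pi ^ 2 ≤ 19.7402 := by nlinarith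
  have h5 : Real.exp (-(4 * Real.pi ^ 2)) * Real.exp ((2 * Real.pi) ^ 2 * v / 2) ≤
      Real.exp (-17.7246) := by
    rw [← Real.exp_add]
    refine Real.exp_le_exp.2 ?_
    nlinarith
  have h6 : Real.exp (-17.7246) ≤ 2.5e-8 := by
    rw [Real.exp_neg]
    rw [inv_le_comm₀ (Real.exp_pos _) (by norm_num)]
    have h7 : Real.exp 17.7246 = Real.exp 1 ^ 17 * Real.exp 0.7246 := by
      rw [← Real.exp_nat_mul, ← Real.exp_add]; norm_num
    rw [h7]
    have h8 : (2.7182818283 : ℝ) ^ 17 ≤ Real.exp 1 ^ 17 := by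
      gcongr
      exact Real.exp_one_gt_d9.le
    have h9 : (1.7246 : ℝ) ≤ Real.exp 0.7246 := by
      have := Real.add_one_le_exp (0.7246 : ℝ)
      linarith
    calc (2.5e-8 : ℝ)⁻¹ ≤ (2.7182818283 : ℝ) ^ 17 * 1.7246 := by norm_num
      _ ≤ _ := by gcongr
  calc 2 * Real.pi ^ 2 * Real.exp (-(4 * Real.pi ^ 2)) * Real.exp ((2 * Real.pi) ^ 2 * v / 2)
      = 2 * Real.pi ^ 2 * (Real.exp (-(4 * Real.pi ^ 2)) * Real.exp ((2 * Real.pi) ^ 2 * v / 2)) := by
        ring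
    _ ≤ 19.7402 * 2.5e-8 := by
        gcongr
        exact h5.trans h6
    _ ≤ 5e-7 := by norm_num

/-- The sampling formula for a general law. -/
theorem samp {h : ℝ → ℝ} {v : ℝ} {ρ : Measure ℝ} (H : Law h v ρ) (hv : v ≤ 1.102) :
    IntegrableOn (fun ξ => (1 - h ξ) / ξ ^ 2) (Ioi 0) ∧
    Summable (fun i : ℕ => h ((i : ℝ) + 1) / ((i : ℝ) + 1) ^ 2) ∧
    ∫ ξ in Ioi (0 : ℝ), (1 - h ξ) / ξ ^ 2 ≤
      Real.pi ^ 2 / 6 + v / 4 - ∑' i : ℕ, h ((i : ℝ) + 1) / ((i : ℝ) + 1) ^ 2 ∧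
    Real.pi ^ 2 / 6 + v / 4 - ∑' i : ℕ, h ((i : ℝ) + 1) / ((i : ℝ) + 1) ^ 2 - 5e-7 ≤
      ∫ ξ in Ioi (0 : ℝ), (1 - h ξ) / ξ ^ 2 := by
  obtain ⟨hprob, hPP, hi2, he2, hch⟩ := H
  have hint : Integrable (fun x : ℝ => x) ρ := by
    refine Integrable.mono' ((integrable_const (1 : ℝ)).add hi2) measurable_id.aestronglyMeasurable
      (Eventually.of_forall fun x => ?_)
    simp only [Pi.add_apply]
    rw [Real.norm_eq_abs]
    nlinarith [sq_abs x, sq_nonneg (|x| - 1)]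
  have hlaw : IsLaw h ρ := ⟨hprob, hint, hPP⟩
  have hok := hlaw.ok
  have habs := hok.abs_le
  have hG : ∫ ξ in Ioi (0 : ℝ), (1 - h ξ) / ξ ^ 2 = Real.pi / 2 * ∫ x, |x| ∂ρ := by
    rw [← hlaw.Lf_eq]
    unfold Lf
    rw [Helper65.Pq.c0_eq]
    field_simp
  have hsum : Summable (fun i : ℕ => h ((i : ℝ) + 1) / ((i : ℝ) + 1) ^ 2) := by
    refine Summable.of_norm_bounded summable_inv_sq fun i => ?_
    rw [Real.norm_eq_abs, abs_div, abs_of_pos (by positivity : (0 : ℝ) < ((i : ℝ) + 1) ^ 2)]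
    exact div_le_div_of_nonneg_right (habs _) (by positivity)
  -- the exchange of sum and integral
  have hci : ∀ ξ, Integrable (fun x : ℝ => Real.cos (ξ * x)) ρ := fun ξ =>
    Integrable.mono' (integrable_const (1 : ℝ)) (by fun_prop)
      (Eventually.of_forall fun x => by rw [Real.norm_eq_abs]; exact Real.abs_cos_le_one _)
  have hSi : Integrable SS ρ ∧
      ∫ x, SS x ∂ρ = ∑' i : ℕ, h ((i : ℝ) + 1) / ((i : ℝ) + 1) ^ 2 := by
    refine ⟨Integrable.mono' (integrable_const (∑' i : ℕ, 1 / ((i : ℝ) + 1) ^ 2))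
      continuous_SS.aestronglyMeasurable (Eventually.of_forall fun x => ?_), ?_⟩
    · exact tsum_of_norm_bounded summable_inv_sq.hasSum (fun i => norm_term_le x i)
    · have hF : ∀ i : ℕ, Integrable (fun x : ℝ => Real.cos (((i : ℝ) + 1) * x) / ((i : ℝ) + 1) ^ 2) ρ :=
        fun i => (hci _).div_const _
      have h' := hasSum_integral_of_summable_integral_norm hF (by
        refine Summable.of_nonneg_of_le (fun i => integral_nonneg fun x => norm_nonneg _)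
          (fun i => ?_) summable_inv_sq
        calc ∫ x, ‖Real.cos (((i : ℝ) + 1) * x) / ((i : ℝ) + 1) ^ 2‖ ∂ρ
            ≤ ∫ _x, 1 / ((i : ℝ) + 1) ^ 2 ∂ρ :=
              integral_mono (hF i).norm (integrable_const _) fun x => norm_term_le x i
          _ = _ := by simp)
      have e := h'.tsum_eq
      unfold SS
      rw [← e]
      congr 1
      ext i
      rw [integral_div, hPP]
  obtain ⟨hSi, hSe⟩ := hSi
  refine ⟨hok.int, hsum, ?_⟩
  rw [← hSe, hG]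
  have hA : Integrable (fun x : ℝ => x ^ 2 / 4) ρ := hi2.div_const 4
  have hB : Integrable (fun x : ℝ => Real.pi ^ 2 / 6 + x ^ 2 / 4) ρ := (integrable_const _).add hA
  have hB' : Integrable (fun x : ℝ => Real.pi ^ 2 / 6 + x ^ 2 / 4 - SS x) ρ := hB.sub hSi
  have hC : Integrable (fun x : ℝ => Real.pi * |x| / 2) ρ :=
    (hint.abs.const_mul Real.pi).div_const 2
  have hD : Integrable (fun x => Real.pi ^ 2 / 6 + x ^ 2 / 4 - SS x - Real.pi * |x| / 2) ρ :=
    hB'.sub hC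
  have hDe : ∫ x, (Real.pi ^ 2 / 6 + x ^ 2 / 4 - SS x - Real.pi * |x| / 2) ∂ρ =
      Real.pi ^ 2 / 6 + v / 4 - ∫ x, SS x ∂ρ - Real.pi / 2 * ∫ x, |x| ∂ρ := by
    rw [integral_sub hB' hC, integral_sub hB hSi,
      integral_add (integrable_const (Real.pi ^ 2 / 6)) hA, integral_div 4, integral_div 2,
      integral_const_mul, he2]
    simp
    ring
  have hD0 : 0 ≤ ∫ x, (Real.pi ^ 2 / 6 + x ^ 2 / 4 - SS x - Real.pi * |x| / 2) ∂ρ :=
    integral_nonneg fun x => (bound_D x).1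
  have hD1 : ∫ x, (Real.pi ^ 2 / 6 + x ^ 2 / 4 - SS x - Real.pi * |x| / 2) ∂ρ ≤ 5e-7 := by
    have hc := hch (2 * Real.pi)
    calc ∫ x, (Real.pi ^ 2 / 6 + x ^ 2 / 4 - SS x - Real.pi * |x| / 2) ∂ρ
        ≤ ∫ x, 2 * Real.pi ^ 2 * Real.exp (-(4 * Real.pi ^ 2)) * Real.cosh (2 * Real.pi * x) ∂ρ :=
          integral_mono hD (hc.1.const_mul _) fun x => (bound_D x).2
      _ = 2 * Real.pi ^ 2 * Real.exp (-(4 * Real.pi ^ 2)) *
          ∫ x, Real.cosh (2 * Real.pi * x) ∂ρ := integral_const_mul _ _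
      _ ≤ 2 * Real.pi ^ 2 * Real.exp (-(4 * Real.pi ^ 2)) *
          Real.exp ((2 * Real.pi) ^ 2 * v / 2) := by
          have := hc.2
          gcongr
      _ ≤ 5e-7 := num_bound hv
  rw [hDe] at hD0 hD1
  constructor
  · linarith
  · linarith

/-- **HG.** -/
theorem gHG : GHG := by
  intro θ h0 h1 a c e ha hc hac he he'
  obtain ⟨ρ, hprob, hcos, hi2, he2, hch⟩ := aLP h0 h1 Bool Finset.univ
    (fun b => if b then a else c) (fun b _ => by cases b <;> simp [ha, hc])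
  simp only [Fintype.univ_bool, Finset.mem_singleton, Bool.true_eq_false, not_false_eq_true,
    Finset.prod_insert, Finset.prod_singleton, if_true, Bool.false_eq_true, if_false,
    Finset.sum_insert, Finset.sum_singleton] at hcos he2 hch
  have H1 : Law (fun ξ => f0 θ (a * ξ ^ 2) * f0 θ (c * ξ ^ 2)) (a + c) ρ :=
    ⟨hprob, hcos, hi2, he2, hch⟩
  obtain ⟨ρ', H2⟩ := H1.mul (law_gauss e.toNNReal)
  rw [Real.coe_toNNReal e he.le] at H2
  obtain ⟨i1, s1, u1, -⟩ := samp H1 (by linarith)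
  obtain ⟨i2, s2, -, l2⟩ := samp H2 (by linarith)
  have ef : ∀ ξ : ℝ, f0 θ (a * ξ ^ 2) * f0 θ (c * ξ ^ 2) * (1 - Real.exp (-(e * ξ ^ 2) / 2)) / ξ ^ 2 =
      (1 - f0 θ (a * ξ ^ 2) * f0 θ (c * ξ ^ 2) * Real.exp (-(e * ξ ^ 2) / 2)) / ξ ^ 2 -
      (1 - f0 θ (a * ξ ^ 2) * f0 θ (c * ξ ^ 2)) / ξ ^ 2 := fun ξ => by ring
  have es : ∀ i : ℕ, f0 θ (a * ((i : ℝ) + 1) ^ 2) * f0 θ (c * ((i : ℝ) + 1) ^ 2) *
      (1 - Real.exp (-(e * ((i : ℝ) + 1) ^ 2) / 2)) / ((i : ℝ) + 1) ^ 2 =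
      f0 θ (a * ((i : ℝ) + 1) ^ 2) * f0 θ (c * ((i : ℝ) + 1) ^ 2) / ((i : ℝ) + 1) ^ 2 -
      f0 θ (a * ((i : ℝ) + 1) ^ 2) * f0 θ (c * ((i : ℝ) + 1) ^ 2) *
        Real.exp (-(e * ((i : ℝ) + 1) ^ 2) / 2) / ((i : ℝ) + 1) ^ 2 := fun i => by ring
  refine ⟨?_, ?_, ?_⟩
  · rw [funext ef]
    exact i2.sub i1
  · rw [funext es]
    exact s1.sub s2
  · rw [tsum_congr es, integral_congr_ae (Eventually.of_forall ef), Summable.tsum_sub s1 s2,
      integral_sub i2 i1]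
    linarith

end Pool.Agent.Helper19.PT
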